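import Pool.Agent.H480R3.Seg.Sym

/-!
# The order of vanishing at the centre and point counts: odd symmetric powers of elliptic curves
twisted by Artin motives

Let `E : y² = x³ + a x + b` be an elliptic curve over `ℚ`, `K` a Galois extension of `ℚ`, `ρ` a
complex representation of its Galois group with real character, and
`M = Sym^(2 j + 1) h^1(E)(j + 1) ⊗ ρ`. If `ρ` is defined over `ℚ`, then `M` is a polarized Chow
motive over `ℚ`; for `j = 0` it is `h^1(A)(1)` for the abelian variety `A`, the twist of the power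
`E^n` by an integral form of `ρ`, and `P_p(1)` below is `#A(𝔽_p) / p^n`.

Let `P_p` be the polynomial of Frobenius of `M` at a good prime `p`, `L` the L-function of `M`
(without the finitely many bad Euler factors), of which it is only assumed that it is meromorphic at
the real points `σ ≥ 0`, `m = ord_{s=0} L` (the order in the formula of Bloch and Kato), and `EP(x)`
the product of `|P_p(1)|` over the good primes `p ≤ x`. Then:

1. If `L` has no pole at a real point `σ > 0`, then `EP(x) / (log x)^κ` is unbounded for every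
`κ < m`; and if `L` does not continue to a holomorphic function without zeros on `Re s > 0`, it is
unbounded for every real `κ`.

2. If `L` has no zero at a real point `σ > 0`, then `EP(x) / (log x)^κ` has lower limit `0` for
every `κ > m`; and if `L` does not continue to a holomorphic function without zeros on `Re s > 0`,
then for every real `κ`.

Both hold also for the logarithmic averages of `log EP(n) - κ log log n`. So a bound
`EP(x) ≤ C (log x)^κ` for large `x` gives `ord_{s=0} L(s, M) ≤ κ`, together with the holomorphic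
continuation of `L` to `Re s > 0`, in the first case; a bound `EP(x) ≥ c (log x)^κ` gives
`ord_{s=0} L(s, M) ≥ κ` and this continuation in the second case.
-/

set_option autoImplicit false

open Filter

namespace Pool.Agent.Results.MP_ec4e4b_nt.TwistedSymmetricPowers

open Pool.Agent.H480R3.Seg.Sym

/-- See the introduction. -/
theorem result (a b : ℤ) (j : ℕ) {K : Type} [Field K] [NumberField K] [IsGalois ℚ K] {n : ℕ}
    (ρ : (K ≃ₐ[ℚ] K) →* Matrix.GeneralLinearGroup (Fin n) ℂ)
    (hρ : ∀ g, (ρ g : Matrix (Fin n) (Fin n) ℂ).trace.im = 0)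
    (frob : ℕ → (K ≃ₐ[ℚ] K))
    (_hfrob : ∀ p, GoodP K a b p → Pool.Agent.H480R3.Seg.Artin.IsFrob K p (frob p))
    (L : ℂ → ℂ) (hL : IsL a b j ρ frob L) (hmero : ∀ σ : ℝ, 0 ≤ σ → MeromorphicAt L σ) :
    ∃ m : ℤ, meromorphicOrderAt L 0 = m ∧
    ((∀ σ : ℝ, 0 < σ → AnalyticAt ℂ L σ) → ∀ κ : ℝ, (κ < m ∨ ¬ Ext L) → ∀ C : ℝ,
      (∃ᶠ x : ℕ in atTop, C < LA a b j ρ frob κ x) ∧
      ∃ᶠ x : ℕ in atTop, C * Real.log x ^ κ < EP a b j ρ frob x) ∧
    ((∀ σ : ℝ, 0 < σ → AnalyticAt ℂ (fun s => (L s)⁻¹) σ) →
      ∀ κ : ℝ, ((m : ℝ) < κ ∨ ¬ Ext L) → ∀ C : ℝ, 0 < C →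
      (∃ᶠ x : ℕ in atTop, LA a b j ρ frob κ x < -C) ∧
      ∃ᶠ x : ℕ in atTop, EP a b j ρ frob x < C * Real.log x ^ κ) :=
  main hρ hL hmero

end Pool.Agent.Results.MP_ec4e4b_nt.TwistedSymmetricPowers
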